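import Pool.Agent.X306.LP.E
import Pool.Agent.X306.LP.Q
import Pool.Agent.X306.LP.Mil

/-!
# Milnor algebras of smooth hypersurfaces: three asymptotic forms of the strong Lefschetz property

Let `K` be a field of characteristic zero, for example `K = ℂ`, let `d` be a natural number, and let
`MA K d` be the class of the graded Milnor algebras `R = K[x_1, ..., x_r] / (∂f/∂x_1, ..., ∂f/∂x_r)` of
the forms `f` of degree `d` (in any number `r` of variables) which define a smooth hypersurface; let
`s = soc R` be the socle degree. For a linear form `l ∈ R_1` let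

* `right(R, l)` be the sum of the lengths of the centred strings (homogeneous Jordan blocks from the
  degree `i` to the degree `s - i` for some `i`) of the multiplication by `l`;
* `rankSum(R, l) = 2 ∑_k k · rank(l ^ k)` and `moment R = ∑_i (s - 2 i)² dim R_i`;
* `jchar(R, l, x)` be the sum of `x ^ (L - 1) + x ^ (L - 3) + ... + x ^ (1 - L)` over the Jordan blocks
  of the multiplication by `l` (`L` the length) and `hchar(R, x) = ∑_i dim R_i · x ^ (s - 2 i)`, for a
  real number `x > 1`.

The class `MA K d` is closed under tensor products (Thom-Sebastiani: `f(x) + g(y)`), and the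
following are equivalent:

1. all the Milnor algebras in `MA K d` have the strong Lefschetz property;
2. for some `f` with `f(s) √s → ∞` (e.g. a positive constant) each of them has a linear form `l` with
   `right(R, l) ≥ f(s) · dim R`;
3. for some `g` with `g(s) → 0` each has a linear form `l` with
   `rankSum(R, l) ≥ (1 - g(s)) · moment R`;
4. for some `h` with `h(s) / s → 0` each has a linear form `l` with
   `jchar(R, l, x) ≥ exp(- h(s)) · hchar(R, x)`.

(The strong Lefschetz elements are those for which `right = dim`, `rankSum = moment`,
`jchar = hchar`; the inequalities `≤` hold for all linear forms.)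
-/

set_option autoImplicit false

universe u v

namespace Pool.Agent.Results.MP_2e2d1a_ag.AsymptoticMilnor

open Pool.Agent.X306.LP

/-- **Milnor algebras of smooth hypersurfaces: the strong Lefschetz property is equivalent to three
asymptotic forms of it.** -/
theorem result {K : Type u} [Field K] [CharZero K] (d : ℕ) (x : ℝ) (hx : 1 < x) :
    (∀ R ∈ MA.{u, v} K d, ∀ S ∈ MA.{u, v} K d, tensor R S ∈ MA.{u, v} K d) ∧
    Criterion (MA.{u, v} K d) ∧ RankCriterion (MA.{u, v} K d) ∧ ExpCriterion (MA.{u, v} K d) x ∧
    ContainsMilnor K d :=
  ⟨fun _ hR _ hS => ⟨isSymm_tensor hR.1 hS.1, isMilnorAlg_tensor hR.2 hS.2⟩,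
    class_iff (fun _ hR => hR.1) (closed_MA d), rank_iff (fun _ hR => hR.1) (closed_MA d),
    exp_iff (fun _ hR => hR.1) (closed_MA d) hx, contains_milnor K d⟩

end Pool.Agent.Results.MP_2e2d1a_ag.AsymptoticMilnor
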